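import Pool.Agent.NH95.AX.Rad
import Pool.Agent.TH305.AX.CmpT2

/-!
Axisymmetric flows: comparison of `-ρ u_ρ + λ Γ ^ 2` with `c + A φ(H(t) ρ)`, with a condition
at the space-time records of the ratio only (helper95).
-/

set_option autoImplicit false

open MeasureTheory Set Metric Filter Topology
open scoped ContDiff

namespace Pool.Agent.NH95.AX

open H459R3.NS W221.NS Pool.Agent.TH305.DR Pool.Agent.TH305.AX

variable {ν T : ℝ} {u : ℝ → V → V} {p : ℝ → V → ℝ}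

lemma str_le (lam : ℝ) (hlam : 0 ≤ lam) {v : V → V} {x : V} {e : ℝ} (he : ‖v x‖ ≤ e) :
    str lam v x ≤ 2 * √(sg x) * e + lam * (4 * sg x * e ^ 2) := by
  have h1 : -rad v x ≤ 2 * √(sg x) * e :=
    ((neg_le_abs _).trans (rad_le v x)).trans (mul_le_mul_of_nonneg_left he (by positivity))
  have h2 : |circ v x| ≤ 2 * √(sg x) * e :=
    (circ_le v x).trans (mul_le_mul_of_nonneg_left he (by positivity))
  have h3 : circ v x ^ 2 ≤ 4 * sg x * e ^ 2 := by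
    calc circ v x ^ 2 = |circ v x| ^ 2 := (sq_abs _).symm
      _ ≤ (2 * √(sg x) * e) ^ 2 := by gcongr
      _ = 4 * (√(sg x) ^ 2) * e ^ 2 := by ring
      _ = 4 * sg x * e ^ 2 := by rw [Real.sq_sqrt (sg_nonneg x)]
  unfold str
  have h4 := mul_le_mul_of_nonneg_left h3 hlam
  linarith

lemma str_axis (lam : ℝ) {v : V → V} {x : V} (h : sg x = 0) : str lam v x = 0 := by
  have h1 : |rad v x| ≤ 0 := by
    have := rad_le v x
    rw [h, Real.sqrt_zero] at this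
    linarith
  have h2 : |circ v x| ≤ 0 := by
    have := circ_le v x
    rw [h, Real.sqrt_zero] at this
    linarith
  unfold str
  rw [abs_nonpos_iff.1 h1, abs_nonpos_iff.1 h2]
  ring

lemma prof_hd {φ : ℝ → ℝ} (hφ : ContDiffOn ℝ 2 φ (Ioi 0)) {y : ℝ} (hy : 0 < y) :
    HasDerivAt φ (deriv φ y) y :=
  ((hφ.differentiableOn (by norm_num)) y hy).differentiableAt (Ioi_mem_nhds hy) |>.hasDerivAt

lemma prof_hd2 {φ : ℝ → ℝ} (hφ : ContDiffOn ℝ 2 φ (Ioi 0)) {y : ℝ} (hy : 0 < y) :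
    HasDerivAt (deriv φ) (deriv (deriv φ) y) y := by
  have h1 : ContDiffAt ℝ 2 φ y := hφ.contDiffAt (Ioi_mem_nhds hy)
  have h2 : ContDiffAt ℝ 1 (deriv φ) y := by
    have h3 : ContDiffOn ℝ 1 (deriv φ) (Ioi 0) :=
      ((contDiffOn_succ_iff_deriv_of_isOpen (n := 1) isOpen_Ioi).1
        (by simpa using (show ContDiffOn ℝ (1 + 1) φ (Ioi 0) by norm_num; exact hφ))).2.2
    exact h3.contDiffAt (Ioi_mem_nhds hy)
  exact (h2.differentiableAt (by norm_num)).hasDerivAt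

theorem cmpF (hν : 0 < ν) (h : AxSol ν T u p) {c S lam : ℝ}
    (hc : 0 < c) (hlam : 0 ≤ lam) {H φ : ℝ → ℝ} (hH0 : ∀ t ∈ Ico 0 T, 0 < H t)
    (hHc : ContinuousOn H (Ico 0 T)) (hHd : ∀ t ∈ Ioo 0 T, DifferentiableAt ℝ H t)
    (hφ2 : ContDiffOn ℝ 2 φ (Ioi 0)) (hφ0 : ∀ y, 0 < y → 0 < φ y) {A : ℝ} (hA : 0 < A)
    (hin : ∀ x, 0 < sg x → sg x ≤ S → str lam (u 0) x ≤ c + A * φ (H 0 * √(sg x)))
    (hlat : ∀ t ∈ Ico 0 T, ∀ x, 0 < sg x → sg x = S →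
      str lam (u t) x ≤ c + A * φ (H t * √(sg x)))
    (hcond : ∀ t ∈ Ioo 0 T, ∀ x, 0 < sg x → sg x < S →
      A < (str lam (u t) x - c) / φ (H t * √(sg x)) →
      (∀ s ∈ Icc 0 t, ∀ y, 0 < sg y → sg y ≤ S →
        (str lam (u s) y - c) / φ (H s * √(sg y)) ≤ (str lam (u t) x - c) / φ (H t * √(sg x))) →
      x 0 * pd 0 (p t) x + x 1 * pd 1 (p t) x ≤ (u t x 0 ^ 2 + u t x 1 ^ 2)
        + 2 * lam * ν * ∑ j, pd j (circ (u t)) x ^ 2
        + (str lam (u t) x - c) / φ (H t * √(sg x)) *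
          ((H t * √(sg x)) * deriv φ (H t * √(sg x)) * (deriv H t / H t + rad (u t) x / sg x)
            + ν * ((H t * √(sg x)) * deriv φ (H t * √(sg x))
              - (H t * √(sg x)) ^ 2 * deriv (deriv φ) (H t * √(sg x))) / sg x)) :
    ∀ t ∈ Ico 0 T, ∀ x, 0 < sg x → sg x ≤ S → str lam (u t) x ≤ c + A * φ (H t * √(sg x)) := by
  intro t₀ ht₀ x₀ hσ₀ hx₀S
  by_contra hcon
  push Not at hcon
  have ht00 : 0 < t₀ := by
    rcases eq_or_lt_of_le ht₀.1 with h1 | h1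
    · rw [← h1] at hcon
      exact absurd (hin x₀ hσ₀ hx₀S) (not_le.2 hcon)
    · exact h1
  have hI : ∀ t ∈ Icc 0 t₀, t ∈ Ico 0 T := fun t ht => ⟨ht.1, ht.2.trans_lt ht₀.2⟩
  have harg : ∀ t ∈ Icc 0 t₀, ∀ x : V, 0 < sg x → 0 < H t * √(sg x) := fun t ht x hx =>
    mul_pos (hH0 t (hI t ht)) (Real.sqrt_pos.2 hx)
  have hposs : ∀ t ∈ Icc 0 t₀, ∀ x : V, 0 < sg x → 0 < φ (H t * √(sg x)) := fun t ht x hx =>
    hφ0 _ (harg t ht x hx)
  have hsgpos : ∀ (t : ℝ) (x : V), c ≤ str lam (u t) x → 0 < sg x := by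
    intro t x hx
    rcases eq_or_lt_of_le (sg_nonneg x) with h1 | h1
    · rw [str_axis lam h1.symm] at hx
      linarith
    · exact h1
  have ht₀I : t₀ ∈ Icc 0 t₀ := ⟨ht00.le, le_rfl⟩
  obtain ⟨Z, hZ⟩ : ∃ Z : ℝ, Z = φ (H t₀ * √(sg x₀)) := ⟨_, rfl⟩
  have hZ0 : 0 < Z := by rw [hZ]; exact hposs t₀ ht₀I x₀ hσ₀
  rw [← hZ] at hcon
  obtain ⟨m₀, hm₀⟩ : ∃ m₀ : ℝ, m₀ = str lam (u t₀) x₀ - c - A * Z := ⟨_, rfl⟩
  have hm₀0 : 0 < m₀ := by rw [hm₀]; linarith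
  obtain ⟨δ, hδ⟩ : ∃ δ : ℝ, δ = m₀ / (2 * (A * Z) * (1 + t₀)) := ⟨_, rfl⟩
  have h1t₀ : 0 < 1 + t₀ := by linarith
  have hδ0 : 0 < δ := by rw [hδ]; positivity
  have hδZ : A * (δ * (1 + t₀) * Z) = m₀ / 2 := by
    rw [hδ]
    field_simp
  -- the perturbed coefficient
  obtain ⟨k, hk⟩ : ∃ k : ℝ → ℝ, k = fun t => 1 + δ * (1 + t) := ⟨_, rfl⟩
  have hk1 : ∀ t, 0 ≤ t → 1 ≤ k t := fun t ht => by
    rw [hk]
    show 1 ≤ 1 + δ * (1 + t)
    have : 0 ≤ δ * (1 + t) := mul_nonneg hδ0.le (by linarith)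
    linarith
  have hkm : ∀ s t, s ≤ t → k s ≤ k t := fun s t hst => by
    rw [hk]
    show 1 + δ * (1 + s) ≤ 1 + δ * (1 + t)
    have := mul_le_mul_of_nonneg_left (show 1 + s ≤ 1 + t by linarith) hδ0.le
    linarith
  obtain ⟨F, hF⟩ : ∃ F : ℝ × V → ℝ,
    F = fun z => (str lam (u z.1) z.2 - c) / (k z.1 * φ (H z.1 * √(sg z.2))) := ⟨_, rfl⟩
  have hkB : ∀ t ∈ Icc 0 t₀, ∀ x : V, 0 < sg x → 0 < k t * φ (H t * √(sg x)) :=
    fun t ht x hx => mul_pos (by linarith [hk1 t ht.1]) (hposs t ht x hx)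
  have hF₀ : A < F (t₀, x₀) := by
    rw [hF]
    show A < (str lam (u t₀) x₀ - c) / (k t₀ * φ (H t₀ * √(sg x₀)))
    rw [lt_div_iff₀ (hkB t₀ ht₀I x₀ hσ₀), ← hZ, hk]
    show A * ((1 + δ * (1 + t₀)) * Z) < _
    have : str lam (u t₀) x₀ - c = m₀ + A * Z := by rw [hm₀]; ring
    rw [this]
    linarith
  -- decay
  obtain ⟨q, hq⟩ : ∃ q : ℝ, q = 2 * √S + 4 * lam * |S| + 1 := ⟨_, rfl⟩
  have hq0 : 0 < q := by rw [hq]; positivity
  obtain ⟨ε, hε⟩ : ∃ ε : ℝ, ε = min 1 (c / (2 * q)) := ⟨_, rfl⟩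
  have hε0 : 0 < ε := by rw [hε]; exact lt_min one_pos (by positivity)
  have hε1 : ε ≤ 1 := by rw [hε]; exact min_le_left _ _
  have hεc : q * ε < c := by
    have h1 : ε ≤ c / (2 * q) := by rw [hε]; exact min_le_right _ _
    have h2 : q * ε ≤ q * (c / (2 * q)) := mul_le_mul_of_nonneg_left h1 hq0.le
    have h3 : q * (c / (2 * q)) = c / 2 := by field_simp
    linarith
  obtain ⟨R, hR⟩ := h.decay t₀ ht₀.2 ε hε0
  have hfar : ∀ t ∈ Icc 0 t₀, ∀ x, R ≤ ‖x‖ → sg x ≤ S → str lam (u t) x < c := by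
    intro t ht x hx hxS
    have h1 := str_le lam hlam (hR t ht x hx)
    have h2 : √(sg x) ≤ √S := Real.sqrt_le_sqrt hxS
    have h3 : sg x ≤ |S| := hxS.trans (le_abs_self S)
    have h4 : ε ^ 2 ≤ ε := by nlinarith
    have h5 : lam * (4 * sg x * ε ^ 2) ≤ lam * (4 * |S| * ε) := by
      have := sg_nonneg x
      gcongr
    have h6 : 2 * √(sg x) * ε ≤ 2 * √S * ε := by gcongr
    have h7 : q * ε = 2 * √S * ε + lam * (4 * |S| * ε) + ε := by rw [hq]; ring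
    linarith
  -- the compact set
  obtain ⟨D, hD⟩ : ∃ D : Set (ℝ × V), D = ((Icc 0 t₀ ×ˢ (closedBall (0 : V) R ∩ {x | sg x ≤ S})) ∩
      (fun z : ℝ × V => str lam (u z.1) z.2) ⁻¹' Ici c) := ⟨_, rfl⟩
  have hK : IsCompact (Icc (0 : ℝ) t₀ ×ˢ (closedBall (0 : V) R ∩ {x | sg x ≤ S})) :=
    isCompact_Icc.prod ((isCompact_closedBall (0 : V) R).inter_right
      (isClosed_le sm_sg.continuous continuous_const))
  have hsc : ContinuousOn (fun z : ℝ × V => str lam (u z.1) z.2)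
      (Icc (0 : ℝ) t₀ ×ˢ (closedBall (0 : V) R ∩ {x | sg x ≤ S})) :=
    (str_cont h lam).mono fun z hz => ⟨hI _ hz.1, trivial⟩
  have hDc : IsCompact D := by
    rw [hD]
    exact hK.of_isClosed_subset (hsc.preimage_isClosed_of_isClosed hK.isClosed isClosed_Ici)
      inter_subset_left
  have hmemD : ∀ t ∈ Icc 0 t₀, ∀ x, sg x ≤ S → c ≤ str lam (u t) x → (t, x) ∈ D := by
    intro t ht x hxS hxc
    rw [hD]
    refine ⟨⟨ht, ?_, hxS⟩, hxc⟩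
    rw [mem_closedBall, dist_zero_right]
    by_contra hcon'
    push Not at hcon'
    exact absurd (hfar t ht x hcon'.le hxS) (not_lt.2 hxc)
  have hDm : ∀ z ∈ D, z.1 ∈ Icc 0 t₀ ∧ sg z.2 ≤ S ∧ c ≤ str lam (u z.1) z.2 := by
    intro z hz
    rw [hD] at hz
    exact ⟨hz.1.1, hz.1.2.2, hz.2⟩
  have hFc : ContinuousOn F D := by
    have h4 : ContinuousOn (fun z : ℝ × V => √(sg z.2)) D :=
      (Real.continuous_sqrt.comp (sm_sg.continuous.comp continuous_snd)).continuousOn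
    have h5 : ContinuousOn (fun z : ℝ × V => H z.1) D :=
      hHc.comp (f := fun z : ℝ × V => z.1) continuous_fst.continuousOn
        fun z hz => hI _ (hDm z hz).1
    have h6 : ContinuousOn (fun z : ℝ × V => k z.1) D := by
      rw [hk]
      fun_prop
    have h7 : ContinuousOn (fun z : ℝ × V => str lam (u z.1) z.2) D :=
      (str_cont h lam).mono fun z hz => ⟨hI _ (hDm z hz).1, trivial⟩
    have h8 : ContinuousOn (fun z : ℝ × V => φ (H z.1 * √(sg z.2))) D :=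
      hφ2.continuousOn.comp (f := fun z : ℝ × V => H z.1 * √(sg z.2)) (h5.mul h4)
        fun z hz => harg z.1 (hDm z hz).1 z.2 (hsgpos _ _ (hDm z hz).2.2)
    rw [hF]
    refine (h7.sub continuousOn_const).div (h6.mul h8) fun z hz => ?_
    obtain ⟨z1, z2, z3⟩ := hDm z hz
    exact (hkB z.1 z1 z.2 (hsgpos _ _ z3)).ne'
  have hmem0 : (t₀, x₀) ∈ D := hmemD t₀ ht₀I x₀ hx₀S (by
    have : 0 < A * Z := mul_pos hA hZ0
    linarith)
  obtain ⟨⟨t, x₁⟩, htx, hmx⟩ := hDc.exists_isMaxOn ⟨(t₀, x₀), hmem0⟩ hFc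
  obtain ⟨ht, hx₁S, hx₁c⟩ := hDm _ htx
  simp only at ht hx₁S hx₁c
  have hσ₁ : 0 < sg x₁ := hsgpos _ _ hx₁c
  have hθ1 : A < F (t, x₁) := hF₀.trans_le (hmx hmem0)
  have hglob : ∀ s ∈ Icc 0 t₀, ∀ y, 0 < sg y → sg y ≤ S → F (s, y) ≤ F (t, x₁) := by
    intro s hs y hy0 hyS
    rcases le_or_gt c (str lam (u s) y) with h1 | h1
    · exact hmx (hmemD s hs y hyS h1)
    · have h2 : F (s, y) < 0 := by
        rw [hF]
        exact div_neg_of_neg_of_pos (by simpa using h1) (hkB s hs y hy0)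
      linarith
  obtain ⟨θ, hθ⟩ : ∃ θ : ℝ, θ = F (t, x₁) := ⟨_, rfl⟩
  rw [← hθ] at hθ1 hglob
  have hθ0 : 0 < θ := hA.trans hθ1
  have hθe : str lam (u t) x₁ - c = θ * (k t * φ (H t * √(sg x₁))) := by
    rw [hθ, hF]
    show _ = (str lam (u t) x₁ - c) / (k t * φ (H t * √(sg x₁))) * _
    rw [div_mul_cancel₀ _ (hkB t ht x₁ hσ₁).ne']
  have hθg : ∀ s ∈ Icc 0 t₀, ∀ y, 0 < sg y → sg y ≤ S →
      str lam (u s) y - c ≤ θ * (k s * φ (H s * √(sg y))) := by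
    intro s hs y hy0 hyS
    have h1 := hglob s hs y hy0 hyS
    rw [hF] at h1
    exact (div_le_iff₀ (hkB s hs y hy0)).1 h1
  have hbig : A * φ (H t * √(sg x₁)) < str lam (u t) x₁ - c := by
    rw [hθe]
    have h1 := hposs t ht x₁ hσ₁
    have h2 := hk1 t ht.1
    have h3 : A < θ * k t := by nlinarith
    calc A * φ (H t * √(sg x₁)) < θ * k t * φ (H t * √(sg x₁)) := mul_lt_mul_of_pos_right h3 h1
      _ = _ := by ring
  have ht0 : 0 < t := by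
    rcases eq_or_lt_of_le ht.1 with h1 | h1
    · exfalso
      rw [← h1] at hbig
      have h2 := hin x₁ hσ₁ hx₁S
      linarith
    · exact h1
  have htT : t ∈ Ioo 0 T := ⟨ht0, ht.2.trans_lt ht₀.2⟩
  have hxS' : sg x₁ < S := by
    rcases eq_or_lt_of_le hx₁S with h1 | h1
    · have h2 := hlat t (hI t ht) x₁ hσ₁ h1
      linarith
    · exact h1
  have hax := h.axi t (Ioo_subset_Ico_self htT)
  -- the point with vanishing torque
  obtain ⟨ψ, hψ⟩ := rolle (slicep h htT) x₁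
  obtain ⟨x, hx⟩ : ∃ x : V, x = rot ψ x₁ := ⟨_, rfl⟩
  rw [← hx] at hψ
  have hsx : sg x = sg x₁ := by rw [hx]; exact sg_rot ψ x₁
  have hstx : str lam (u t) x = str lam (u t) x₁ := by rw [hx]; exact str_rot hax ψ x₁
  rw [← hsx] at hσ₁ hbig hxS' hθe
  rw [← hstx] at hbig hθe
  have hφx : 0 < φ (H t * √(sg x)) := hposs t ht x hσ₁
  -- the record
  have hratio : (str lam (u t) x - c) / φ (H t * √(sg x)) = θ * k t := by
    rw [div_eq_iff hφx.ne', hθe]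
    ring
  have hrec : ∀ s ∈ Icc 0 t, ∀ y, 0 < sg y → sg y ≤ S →
      (str lam (u s) y - c) / φ (H s * √(sg y)) ≤ (str lam (u t) x - c) / φ (H t * √(sg x)) := by
    intro s hs y hy0 hyS
    have hs' : s ∈ Icc 0 t₀ := ⟨hs.1, hs.2.trans ht.2⟩
    have h1 := hθg s hs' y hy0 hyS
    have h2 : (str lam (u s) y - c) / φ (H s * √(sg y)) ≤ θ * k s := by
      rw [div_le_iff₀ (hposs s hs' y hy0)]
      linarith
    rw [hratio]
    exact h2.trans (mul_le_mul_of_nonneg_left (hkm s t hs.2) hθ0.le)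
  have hco := hcond t htT x hσ₁ hxS' (by rw [lt_div_iff₀ hφx]; exact hbig) hrec
  rw [hratio] at hco
  -- the touching function
  obtain ⟨ρ, hρ⟩ : ∃ ρ : ℝ, ρ = √(sg x) := ⟨_, rfl⟩
  have hρ0 : 0 < ρ := by rw [hρ]; exact Real.sqrt_pos.2 hσ₁
  have hσρ : sg x = ρ ^ 2 := by rw [hρ, Real.sq_sqrt (sg_nonneg x)]
  have hHt : 0 < H t := hH0 t (hI t ht)
  obtain ⟨M, hM⟩ : ∃ M : ℝ, M = θ * k t := ⟨_, rfl⟩
  have hsq : ∀ r : ℝ, 0 < r → HasDerivAt (fun r => H t * √r) (H t * (1 / (2 * √r))) r :=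
    fun r hr => (Real.hasDerivAt_sqrt hr.ne').const_mul (H t)
  obtain ⟨χ, hχ⟩ : ∃ χ : ℝ → ℝ, χ = fun r => φ (H t * √r) := ⟨_, rfl⟩
  obtain ⟨χ₁, hχ₁⟩ : ∃ χ₁ : ℝ → ℝ, χ₁ = fun r => deriv φ (H t * √r) * (H t / 2 * (√r)⁻¹) :=
    ⟨_, rfl⟩
  have hd1 : ∀ᶠ r in 𝓝 (sg x), HasDerivAt χ (χ₁ r) r := by
    filter_upwards [lt_mem_nhds hσ₁] with r hr
    have hr0 : 0 < √r := Real.sqrt_pos.2 hr
    rw [hχ, hχ₁]
    refine ((prof_hd hφ2 (mul_pos hHt hr0)).comp r (hsq r hr)).congr_deriv ?_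
    show deriv φ (H t * √r) * (H t * (1 / (2 * √r))) = deriv φ (H t * √r) * (H t / 2 * (√r)⁻¹)
    field_simp
  obtain ⟨χ₂, hχ₂⟩ : ∃ χ₂ : ℝ, χ₂ = deriv (deriv φ) (H t * ρ) * (H t * (1 / (2 * ρ)))
      * (H t / 2 * ρ⁻¹) + deriv φ (H t * ρ) * (H t / 2 * (-(1 / (2 * ρ)) / ρ ^ 2)) := ⟨_, rfl⟩
  have hd2 : HasDerivAt χ₁ χ₂ (sg x) := by
    rw [hχ₁, hχ₂, hρ]
    have h1 := (prof_hd2 hφ2 (mul_pos hHt (Real.sqrt_pos.2 hσ₁))).comp (sg x) (hsq (sg x) hσ₁)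
    have h2 : HasDerivAt (fun r => (√r)⁻¹) (-(1 / (2 * √(sg x))) / √(sg x) ^ 2) (sg x) :=
      (Real.hasDerivAt_sqrt hσ₁.ne').inv (Real.sqrt_pos.2 hσ₁).ne'
    exact h1.mul (h2.const_mul (H t / 2))
  have hχs : ContDiffAt ℝ 2 χ (sg x) := by
    rw [hχ]
    have h1 : ContDiffAt ℝ 2 (fun r => H t * √r) (sg x) :=
      contDiffAt_const.mul (Real.contDiffAt_sqrt hσ₁.ne')
    have h2 : ContDiffAt ℝ 2 φ (H t * √(sg x)) :=
      hφ2.contDiffAt (Ioi_mem_nhds (mul_pos hHt (Real.sqrt_pos.2 hσ₁)))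
    exact h2.comp (sg x) h1
  have hsmW : ContDiffAt ℝ 2 (fun y => M * χ (sg y)) x :=
    contDiffAt_const.mul (hχs.comp _ (sm_sg.contDiffAt.of_le (by norm_cast)))
  have hlm : IsLocalMax (fun y => str lam (u t) y - M * χ (sg y)) x := by
    have h3' : ∀ᶠ y in 𝓝 x, sg y < S := ev_sg (P := fun r => r < S) (gt_mem_nhds hxS')
    have h4' : ∀ᶠ y in 𝓝 x, 0 < sg y := ev_sg (P := fun r => 0 < r) (lt_mem_nhds hσ₁)
    filter_upwards [h3', h4'] with y hyS hy0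
    have h1 := hθg t ht y hy0 hyS.le
    rw [hχ, hM]
    show str lam (u t) y - θ * k t * φ (H t * √(sg y))
      ≤ str lam (u t) x - θ * k t * φ (H t * √(sg x))
    have h2 : str lam (u t) x - θ * k t * φ (H t * √(sg x)) = c := by linear_combination hθe
    rw [h2]
    linarith
  have htch := touchQ hν (slice0 h (Ioo_subset_Ico_self htT)) hax
    (d := fun i => deriv (fun τ => u τ x i) t) (fun i => h.momentum t htT x i) hψ hσ₁ hsmW hlm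
  have hpdW : ∀ j, pd j (fun y => M * χ (sg y)) x = M * (χ₁ (sg x) * (2 * cj j * x j)) :=
    fun j => pd_maj M hd1.self_of_nhds j
  rw [lap_maj M hd1 hd2] at htch
  simp only [hpdW] at htch
  obtain ⟨L1, hL1⟩ : ∃ L1 : ℝ, L1 = χ₁ (sg x) := ⟨_, rfl⟩
  rw [← hL1] at htch
  have hom : 2 * (x 0 * (M * (L1 * (2 * cj 0 * x 0)))
      + x 1 * (M * (L1 * (2 * cj 1 * x 1)))) / sg x = 4 * M * L1 := by
    rw [div_eq_iff hσ₁.ne', cj0, cj1]
    unfold sg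
    ring
  rw [hom] at htch
  have hsum : ∑ j, u t x j * (M * (L1 * (2 * cj j * x j))) = 2 * M * L1 * rad (u t) x := by
    unfold rad
    simp only [Fin.sum_univ_three, cj0, cj1, cj2]
    ring
  rw [hsum] at htch
  -- the time derivative
  obtain ⟨D0, hD0⟩ : ∃ D0 : ℝ, D0 = -(x 0 * deriv (fun s => u s x 0) t
    + x 1 * deriv (fun s => u s x 1) t) + 2 * lam * circ (u t) x *
      (x 0 * deriv (fun s => u s x 1) t - x 1 * deriv (fun s => u s x 0) t) := ⟨_, rfl⟩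
  have hkd : HasDerivAt k δ t := by
    rw [hk]
    have h1 : HasDerivAt (fun t : ℝ => 1 + δ * (1 + t)) (δ * 1) t :=
      (((hasDerivAt_id t).const_add 1).const_mul δ).const_add 1
    rw [mul_one] at h1
    exact h1
  have hφd : HasDerivAt (fun τ => φ (H τ * √(sg x)))
      (deriv φ (H t * √(sg x)) * (deriv H t * √(sg x))) t :=
    (prof_hd hφ2 (mul_pos hHt (Real.sqrt_pos.2 hσ₁))).comp t
      ((hHd t htT).hasDerivAt.mul_const (√(sg x)))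
  have hder : HasDerivAt (fun τ => str lam (u τ) x - θ * (k τ * φ (H τ * √(sg x))))
      (D0 - θ * (δ * φ (H t * √(sg x))
        + k t * (deriv φ (H t * √(sg x)) * (deriv H t * √(sg x))))) t := by
    rw [hD0]
    exact (str_hd h lam htT x).sub ((hkd.mul hφd).const_mul θ)
  have hnn := deriv_nonneg_of_le ht0 hder (by
    intro s hs
    have h1 := hθg s ⟨hs.1, hs.2.trans ht.2⟩ x hσ₁ hxS'.le
    show str lam (u s) x - θ * (k s * φ (H s * √(sg x)))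
      ≤ str lam (u t) x - θ * (k t * φ (H t * √(sg x)))
    linarith)
  have htch' : D0 ≤ ν * (M * (4 * sg x * χ₂ + 4 * L1)
      - 4 * M * L1) - 2 * M * L1 * rad (u t) x - (u t x 0 ^ 2 + u t x 1 ^ 2)
      + (x 0 * pd 0 (p t) x + x 1 * pd 1 (p t) x)
      - 2 * lam * ν * ∑ j, pd j (circ (u t)) x ^ 2 := by
    rw [hD0]
    exact htch
  -- simplification
  rw [← hρ] at hnn hφx
  rw [← hρ, hσρ] at hco
  have e3 : L1 = deriv φ (H t * ρ) * (H t / 2 * ρ⁻¹) := by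
    rw [hL1, hχ₁, hρ]
  obtain ⟨f1, hf1⟩ : ∃ f1 : ℝ, f1 = deriv φ (H t * ρ) := ⟨_, rfl⟩
  obtain ⟨f2, hf2⟩ : ∃ f2 : ℝ, f2 = deriv (deriv φ) (H t * ρ) := ⟨_, rfl⟩
  obtain ⟨f0, hf0⟩ : ∃ f0 : ℝ, f0 = φ (H t * ρ) := ⟨_, rfl⟩
  obtain ⟨w, hw⟩ : ∃ w : ℝ, w = rad (u t) x := ⟨_, rfl⟩
  rw [hσρ, e3, hχ₂, ← hf1, ← hf2, ← hw] at htch'
  rw [← hf1, ← hf2, ← hw, ← hM] at hco
  rw [← hf1, ← hf0] at hnn
  rw [← hf0] at hφx
  have e5 : ν * (M * (4 * ρ ^ 2 * (f2 * (H t * (1 / (2 * ρ))) * (H t / 2 * ρ⁻¹)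
      + f1 * (H t / 2 * (-(1 / (2 * ρ)) / ρ ^ 2))) + 4 * (f1 * (H t / 2 * ρ⁻¹)))
      - 4 * M * (f1 * (H t / 2 * ρ⁻¹))) - 2 * M * (f1 * (H t / 2 * ρ⁻¹)) * w
      = M * (-(H t * ρ * f1 * (w / ρ ^ 2)) - ν * (H t * ρ * f1 - (H t * ρ) ^ 2 * f2) / ρ ^ 2) := by
    field_simp
    ring
  rw [e5] at htch'
  have e6 : θ * (δ * f0 + k t * (f1 * (deriv H t * ρ)))
      = θ * δ * f0 + M * (H t * ρ * f1 * (deriv H t / H t)) := by
    rw [hM]
    field_simp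
  rw [e6] at hnn
  have e7 : M * (H t * ρ * f1 * (deriv H t / H t + w / ρ ^ 2)
      + ν * (H t * ρ * f1 - (H t * ρ) ^ 2 * f2) / ρ ^ 2)
      = M * (H t * ρ * f1 * (deriv H t / H t)) - M * (-(H t * ρ * f1 * (w / ρ ^ 2))
        - ν * (H t * ρ * f1 - (H t * ρ) ^ 2 * f2) / ρ ^ 2) := by
    ring
  rw [e7] at hco
  have hfin : 0 < θ * δ * f0 := by positivity
  linarith

end Pool.Agent.NH95.AX
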