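import Pool.Agent.NH95.AX.MainF

/-!
Examples of profiles (helper95).
-/

set_option autoImplicit false

open MeasureTheory Set Metric Filter Topology
open scoped ContDiff

namespace Pool.Agent.NH95.AX

lemma prof_of {φ φ₁ φ₂ : ℝ → ℝ} (h2 : ContDiffOn ℝ 2 φ (Ioi 0)) (ht : Tendsto φ (𝓝[>] 0) (𝓝 0))
    (h0 : ∀ y, 0 < y → 0 < φ y) (hd1 : ∀ y, 0 < y → HasDerivAt φ (φ₁ y) y)
    (hd2 : ∀ y, 0 < y → HasDerivAt φ₁ (φ₂ y) y) (h1 : ∀ y, 0 < y → 0 ≤ φ₁ y)
    (h22 : ∀ y, 0 < y → φ₂ y ≤ 0) : Prof φ := by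
  refine ⟨h2, ht, fun y hy => ⟨h0 y hy, ?_, ?_⟩⟩
  · rw [(hd1 y hy).deriv]
    exact h1 y hy
  · have hev : deriv φ =ᶠ[𝓝 y] φ₁ := by
      filter_upwards [lt_mem_nhds hy] with z hz
      exact (hd1 z hz).deriv
    rw [hev.deriv_eq, (hd2 y hy).deriv]
    exact h22 y hy

/-- Powers. -/
theorem prof_pow {α : ℝ} (hα : 0 < α) (hα1 : α ≤ 1) : Prof fun y => y ^ α := by
  refine prof_of (φ₁ := fun y => α * y ^ (α - 1))
    (φ₂ := fun y => α * ((α - 1) * y ^ (α - 1 - 1))) ?_ ?_ ?_ ?_ ?_ ?_ ?_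
  · exact fun y hy => (Real.contDiffAt_rpow_const_of_ne (ne_of_gt hy)).contDiffWithinAt
  · have h1 : ContinuousAt (fun y : ℝ => y ^ α) 0 := Real.continuousAt_rpow_const 0 α (Or.inr hα.le)
    have h2 : Tendsto (fun y : ℝ => y ^ α) (𝓝 0) (𝓝 0) := by
      have := h1.tendsto
      simpa [Real.zero_rpow hα.ne'] using this
    exact h2.mono_left nhdsWithin_le_nhds
  · exact fun y hy => Real.rpow_pos_of_pos hy _
  · exact fun y hy => Real.hasDerivAt_rpow_const (Or.inl hy.ne')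
  · exact fun y hy => (Real.hasDerivAt_rpow_const (Or.inl hy.ne')).const_mul α
  · exact fun y hy => mul_nonneg hα.le (Real.rpow_nonneg hy.le _)
  · intro y hy
    have : 0 ≤ y ^ (α - 1 - 1) := Real.rpow_nonneg hy.le _
    have h1 : (α - 1) * y ^ (α - 1 - 1) ≤ 0 := mul_nonpos_of_nonpos_of_nonneg (by linarith) this
    exact mul_nonpos_of_nonneg_of_nonpos hα.le h1

/-- Powers of logarithms. -/
theorem prof_log {κ : ℝ} (hκ : 0 < κ) :
    Prof fun y => Real.log (Real.exp (κ + 1) + 1 / y) ^ (-κ) := by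
  obtain ⟨b, hb⟩ : ∃ b : ℝ, b = Real.exp (κ + 1) := ⟨_, rfl⟩
  rw [← hb]
  have hb0 : 0 < b := by rw [hb]; exact Real.exp_pos _
  have hlb : Real.log b = κ + 1 := by rw [hb, Real.log_exp]
  have harg : ∀ y : ℝ, 0 < y → b < b + 1 / y := fun y hy => by
    have : 0 < 1 / y := by positivity
    linarith
  have hL : ∀ y : ℝ, 0 < y → κ + 1 < Real.log (b + 1 / y) := fun y hy => by
    rw [← hlb]
    exact Real.log_lt_log hb0 (harg y hy)
  have hL0 : ∀ y : ℝ, 0 < y → 0 < Real.log (b + 1 / y) := fun y hy => by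
    have := hL y hy
    linarith
  have hLd : ∀ y : ℝ, 0 < y →
      HasDerivAt (fun y => Real.log (b + 1 / y)) (-(1 / (y * (b * y + 1)))) y := fun y hy => by
    have h1 : HasDerivAt (fun y : ℝ => b + 1 / y) (-(1 / y ^ 2)) y := by
      have h2 := (hasDerivAt_inv hy.ne').const_add b
      simp only [one_div]
      exact h2
    refine (h1.log (hb0.trans (harg y hy)).ne').congr_deriv ?_
    field_simp
  refine prof_of (φ₁ := fun y => κ * Real.log (b + 1 / y) ^ (-κ - 1) * (1 / (y * (b * y + 1))))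
    (φ₂ := fun y => κ * Real.log (b + 1 / y) ^ (-κ - 2) * (1 / (y * (b * y + 1))) ^ 2
      * ((κ + 1) - Real.log (b + 1 / y) * (2 * b * y + 1))) ?_ ?_ ?_ ?_ ?_ ?_ ?_
  · intro y hy
    have hy' : (0 : ℝ) < y := hy
    have h1 : ContDiffAt ℝ 2 (fun y : ℝ => b + 1 / y) y :=
      contDiffAt_const.add (contDiffAt_const.div contDiffAt_id hy'.ne')
    exact ((h1.log (hb0.trans (harg y hy')).ne').rpow_const_of_ne (hL0 y hy').ne').contDiffWithinAt
  · have h1 : Tendsto (fun y : ℝ => b + 1 / y) (𝓝[>] 0) atTop := by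
      simp only [one_div]
      exact tendsto_atTop_add_const_left _ b tendsto_inv_nhdsGT_zero
    exact (tendsto_rpow_neg_atTop hκ).comp (Real.tendsto_log_atTop.comp h1)
  · exact fun y hy => Real.rpow_pos_of_pos (hL0 y hy) _
  · intro y hy
    refine ((hLd y hy).rpow_const (Or.inl (hL0 y hy).ne')).congr_deriv ?_
    ring
  · intro y hy
    have hLy := hL0 y hy
    have hD : y * (b * y + 1) ≠ 0 := by positivity
    have h1 : HasDerivAt (fun y => Real.log (b + 1 / y) ^ (-κ - 1))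
        (-(1 / (y * (b * y + 1))) * (-κ - 1) * Real.log (b + 1 / y) ^ (-κ - 1 - 1)) y :=
      (hLd y hy).rpow_const (Or.inl hLy.ne')
    have h2 : HasDerivAt (fun y : ℝ => y * (b * y + 1)) (1 * (b * y + 1) + y * (b * 1)) y :=
      (hasDerivAt_id y).mul (((hasDerivAt_id y).const_mul b).add_const 1)
    have h3 : HasDerivAt (fun y : ℝ => 1 / (y * (b * y + 1)))
        (-(1 * (b * y + 1) + y * (b * 1)) / (y * (b * y + 1)) ^ 2) y := by
      simp only [one_div]
      exact h2.inv hD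
    refine ((h1.const_mul κ).mul h3).congr_deriv ?_
    have e1 : Real.log (b + 1 / y) ^ (-κ - 1)
        = Real.log (b + 1 / y) ^ (-κ - 2) * Real.log (b + 1 / y) := by
      rw [← Real.rpow_add_one hLy.ne']
      congr 1
      ring
    have e2 : (-κ - 1 - 1 : ℝ) = -κ - 2 := by ring
    rw [e1, e2]
    field_simp
    ring
  · intro y hy
    have := Real.rpow_nonneg (hL0 y hy).le (-κ - 1)
    positivity
  · intro y hy
    have hLy := hL y hy
    have h1 : 0 ≤ κ * Real.log (b + 1 / y) ^ (-κ - 2) * (1 / (y * (b * y + 1))) ^ 2 := by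
      have := Real.rpow_nonneg (hL0 y hy).le (-κ - 2)
      positivity
    have h2 : (κ + 1) - Real.log (b + 1 / y) * (2 * b * y + 1) ≤ 0 := by
      have h3 : 0 ≤ Real.log (b + 1 / y) * (2 * b * y) := by
        have := hL0 y hy
        positivity
      nlinarith
    exact mul_nonpos_of_nonneg_of_nonpos h1 h2

end Pool.Agent.NH95.AX
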