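import Pool.Agent.NH95.AX.Rad
import Pool.Agent.TH305.AX.Wd

/-!
Axisymmetric flows with finite energy are bounded away from the axis (helper95).
-/

set_option autoImplicit false

open MeasureTheory Set Metric Filter Topology
open scoped ContDiff ENNReal NNReal

namespace Pool.Agent.NH95.AX

open H459R3.NS W221.NS Pool.Agent.TH305.DR Pool.Agent.TH305.AX

variable {ν T : ℝ} {u : ℝ → V → V} {p : ℝ → V → ℝ}

lemma toOSol (hS : AxSol ν T u p) {E : ℝ} (hint : ∀ t ∈ Ioo 0 T, Integrable (nsq (u t)))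
    (hE : ∀ t ∈ Ioo 0 T, ∫ x, nsq (u t) x ≤ E ^ 2) : OSol ν T E univ u p where
  openO := isOpen_univ
  smooth_u := hS.smooth_u.mono (prod_mono Ioo_subset_Ico_self subset_rfl)
  smooth_p := hS.smooth_p
  divfree := fun t ht x _ => hS.divfree t (Ioo_subset_Ico_self ht) x
  momentum := fun t ht x _ i => hS.momentum t ht x i
  en_int := fun t ht => integrableOn_univ.2 (hint t ht)
  en := fun t ht => by
    rw [setIntegral_univ]
    exact hE t ht

theorem latB (hν : 0 < ν) (hS : AxSol ν T u p) {E : ℝ}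
    (hint : ∀ t ∈ Ioo 0 T, Integrable (nsq (u t)))
    (hE : ∀ t ∈ Ioo 0 T, ∫ x, nsq (u t) x ≤ E)
    (hfin : ∫⁻ t in Ioo 0 T, ∫⁻ x, ENNReal.ofReal (gsq (u t) x) ≠ ⊤) {r₀ : ℝ} (hr₀ : 0 < r₀) :
    ∃ M : ℝ, ∀ t ∈ Ico 0 T, ∀ x, √(sg x) = r₀ → ‖u t x‖ ≤ M := by
  rcases le_or_gt T 0 with hT | hT
  · exact ⟨0, fun t ht => absurd (ht.1.trans_lt ht.2) (not_lt.2 hT)⟩
  obtain ⟨C, hC, K, hK, H⟩ := at_time
  obtain ⟨E', hE'⟩ : ∃ E' : ℝ, E' = √(max E 0) := ⟨_, rfl⟩
  have hE'0 : 0 ≤ E' := by rw [hE']; exact Real.sqrt_nonneg _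
  have hOS : OSol ν T E' univ u p := toOSol hS hint fun t ht => by
    rw [hE', Real.sq_sqrt (le_max_right _ _)]
    exact (hE t ht).trans (le_max_left _ _)
  have hε : ENNReal.ofReal (ν / C * r₀) ≠ 0 := by
    simpa using (show 0 < ν / C * r₀ by positivity)
  obtain ⟨δ, hδ, hδ'⟩ := exists_pos_setLIntegral_lt_of_measure_lt
    (μ := volume.restrict (Ioo 0 T)) (f := fun t => ∫⁻ x, ENNReal.ofReal (gsq (u t) x)) hfin hε
  obtain ⟨κ₀, hκ₀, hκδ⟩ := ENNReal.lt_iff_exists_nnreal_btwn.1 hδ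
  have hκ₀' : (0 : ℝ) < κ₀ := by
    have : (0 : ℝ≥0) < κ₀ := by exact_mod_cast hκ₀
    exact_mod_cast this
  obtain ⟨κ, hκ⟩ : ∃ κ : ℝ, κ = min (κ₀ : ℝ) (T / 4) := ⟨_, rfl⟩
  have hκ0 : 0 < κ := by rw [hκ]; exact lt_min hκ₀' (by positivity)
  have hκT : κ ≤ T / 4 := by rw [hκ]; exact min_le_right _ _
  have hκδ' : ENNReal.ofReal κ < δ := by
    refine lt_of_le_of_lt ?_ hκδ
    rw [← ENNReal.ofReal_coe_nnreal]
    apply ENNReal.ofReal_le_ofReal
    rw [hκ]
    exact min_le_left _ _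
  obtain ⟨r, hr⟩ : ∃ r : ℝ, r = √(ν * κ) := ⟨_, rfl⟩
  have hr0 : 0 < r := by rw [hr]; positivity
  have hrκ : r ^ 2 / ν = κ := by
    rw [hr, Real.sq_sqrt (by positivity)]
    field_simp
  obtain ⟨U, hU0, hU⟩ := u_bdd hS (show T / 2 < T by linarith)
  obtain ⟨M, hM⟩ : ∃ M : ℝ, M = K 0 * (ν + E' / √(r₀ + r)) / r := ⟨_, rfl⟩
  have hM0 : 0 ≤ M := by
    have := hK 0
    rw [hM]
    positivity
  refine ⟨max U M, fun t ht x hx => ?_⟩
  rcases le_or_gt t κ with h1 | h1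
  · exact (hU t ⟨ht.1, by linarith⟩ x).trans (le_max_left _ _)
  · refine le_trans ?_ (le_max_right _ _)
    have h2 := H ν T E' u p hν hE'0 hOS (fun t ht => hS.axi t (Ioo_subset_Ico_self ht)) r t x hr0
      (by rw [hrκ]; exact h1) ht.2 (by
        rw [hrκ, hx]
        have hsub : Ioo (t - κ) t ⊆ Ioo 0 T := Ioo_subset_Ioo (by linarith) ht.2.le
        have h3 := hδ' (Ioo (t - κ) t) (by
          refine lt_of_le_of_lt (Measure.restrict_apply_le _ _) ?_
          rw [Real.volume_Ioo]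
          have e : t - (t - κ) = κ := by ring
          rw [e]
          exact hκδ')
        rw [Measure.restrict_restrict_of_subset hsub] at h3
        refine h3.trans_le (ENNReal.ofReal_le_ofReal ?_)
        have : 0 < ν / C := by positivity
        nlinarith) []
    rw [pi_norm_le_iff_of_nonneg hM0]
    intro i
    have h3 := h2.2 i
    rw [hx] at h3
    rw [Real.norm_eq_abs, hM]
    have e : dl [] (fun y => u t y i) x = u t x i := rfl
    rw [e] at h3
    simpa using h3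

end Pool.Agent.NH95.AX
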