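import Pool.Agent.NH95.AX.CmpF
import Pool.Agent.NH42.AX.One

/-!
Axisymmetric flows: the criterion with the radial pressure gradient (helper95).
-/

set_option autoImplicit false

open MeasureTheory Set Metric Filter Topology
open scoped ContDiff

namespace Pool.Agent.NH95.AX

open H459R3.NS W221.NS Pool.Agent.TH305.DR Pool.Agent.TH305.AX

/-- `φ` is positive, nondecreasing, concave and of class `C²` on `(0, ∞)`, and `φ(0+) = 0`. -/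
def Prof (φ : ℝ → ℝ) : Prop :=
  ContDiffOn ℝ 2 φ (Ioi 0) ∧ Tendsto φ (𝓝[>] 0) (𝓝 0) ∧
    ∀ y, 0 < y → 0 < φ y ∧ 0 ≤ deriv φ y ∧ deriv (deriv φ) y ≤ 0

lemma Prof.mono {φ : ℝ → ℝ} (h : Prof φ) : MonotoneOn φ (Ioi 0) := by
  refine monotoneOn_of_deriv_nonneg (convex_Ioi 0) h.1.continuousOn ?_ ?_
  · rw [interior_Ioi]
    exact h.1.differentiableOn (by norm_num)
  · rw [interior_Ioi]
    exact fun y hy => (h.2.2 y hy).2.1

lemma Prof.conc {φ : ℝ → ℝ} (h : Prof φ) : ConcaveOn ℝ (Ioi 0) φ := by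
  refine concaveOn_of_deriv2_nonpos (convex_Ioi 0) h.1.continuousOn ?_ ?_ ?_
  · rw [interior_Ioi]
    exact h.1.differentiableOn (by norm_num)
  · rw [interior_Ioi]
    exact fun y hy => (prof_hd2 h.1 hy).differentiableAt.differentiableWithinAt
  · rw [interior_Ioi]
    exact fun y hy => (h.2.2 y hy).2.2

lemma Prof.lin {φ : ℝ → ℝ} (h : Prof φ) {A y : ℝ} (hA : 0 ≤ A) (hy : 0 < y) :
    ∃ C : ℝ, 0 ≤ C ∧ ∀ s : ℝ, 0 < s → A * φ s ≤ y + C * s := by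
  have hy1 : 0 < y / (A + 1) := by positivity
  have hev : ∀ᶠ s in 𝓝[>] (0 : ℝ), φ s < y / (A + 1) := h.2.1.eventually_lt_const hy1
  obtain ⟨s₁, hs₁, hlt⟩ := mem_nhdsGT_iff_exists_Ioo_subset.1 hev
  have hs₁0 : 0 < s₁ := hs₁
  have hφ1 : 0 < φ s₁ := (h.2.2 s₁ hs₁0).1
  refine ⟨A * (φ s₁ * (2 / s₁)), by positivity, fun s hs => ?_⟩
  rcases lt_or_ge s s₁ with h1 | h1
  · have h2 : φ s < y / (A + 1) := hlt ⟨hs, h1⟩
    have h3 : A * φ s ≤ A * (y / (A + 1)) := mul_le_mul_of_nonneg_left h2.le hA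
    have h4 : A * (y / (A + 1)) ≤ y := by
      rw [mul_div_assoc', div_le_iff₀ (by positivity)]
      nlinarith
    have h5 : 0 ≤ A * (φ s₁ * (2 / s₁)) * s := by positivity
    linarith
  · have hd : 0 < s - s₁ / 2 := by linarith
    obtain ⟨θ, hθ⟩ : ∃ θ : ℝ, θ = s₁ / 2 / (s - s₁ / 2) := ⟨_, rfl⟩
    have hθ0 : 0 < θ := by rw [hθ]; positivity
    have hθ1 : θ ≤ 1 := by
      rw [hθ, div_le_one hd]
      linarith
    have h2 := h.conc.2 (show s₁ / 2 ∈ Ioi (0 : ℝ) from by show 0 < s₁ / 2; positivity)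
      (show s ∈ Ioi (0 : ℝ) from hs) (show 0 ≤ 1 - θ by linarith) hθ0.le (by ring)
    simp only [smul_eq_mul] at h2
    have e : (1 - θ) * (s₁ / 2) + θ * s = s₁ := by
      have : θ * (s - s₁ / 2) = s₁ / 2 := by rw [hθ]; exact div_mul_cancel₀ _ hd.ne'
      linarith
    rw [e] at h2
    have h3 : 0 ≤ (1 - θ) * φ (s₁ / 2) :=
      mul_nonneg (by linarith) (h.2.2 _ (by positivity)).1.le
    have h4 : θ * φ s ≤ φ s₁ := by linarith
    have h5 : φ s ≤ φ s₁ * (2 / s₁) * s := by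
      have h6 : φ s ≤ φ s₁ / θ := by
        rw [le_div_iff₀ hθ0]
        linarith
      have h7 : φ s₁ / θ = φ s₁ * (2 / s₁) * (s - s₁ / 2) := by
        rw [hθ]
        field_simp
      rw [h7] at h6
      have h8 : 0 < φ s₁ * (2 / s₁) := by positivity
      have h9 : φ s₁ * (2 / s₁) * (s - s₁ / 2) ≤ φ s₁ * (2 / s₁) * s :=
        mul_le_mul_of_nonneg_left (by linarith) h8.le
      linarith
    calc A * φ s ≤ A * (φ s₁ * (2 / s₁) * s) := mul_le_mul_of_nonneg_left h5 hA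
      _ = A * (φ s₁ * (2 / s₁)) * s := by ring
      _ ≤ y + A * (φ s₁ * (2 / s₁)) * s := by linarith

variable {ν T : ℝ} {u : ℝ → V → V} {p : ℝ → V → ℝ}

theorem mainF1 (hν : 0 < ν) (hS : AxSol ν T u p) {c lam r₀ M m K : ℝ}
    (hc : 0 < c) (hlam : 0 ≤ lam) (hr₀ : 0 < r₀)
    (hM : ∀ t ∈ Ico 0 T, ∀ x, √(sg x) = r₀ → ‖u t x‖ ≤ M) {H φ : ℝ → ℝ} (hφ : Prof φ)
    (hm : 0 < m) (hHm : ∀ t ∈ Ico 0 T, m ≤ H t) (hHc : ContinuousOn H (Ico 0 T))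
    (hHd : ∀ t ∈ Ioo 0 T, DifferentiableAt ℝ H t)
    (hcond : ∀ t ∈ Ioo 0 T, ∀ x, 0 < √(sg x) → √(sg x) < r₀ →
      K < (str lam (u t) x - c) / φ (H t * √(sg x)) →
      (∀ s ∈ Icc 0 t, ∀ y, 0 < √(sg y) → √(sg y) ≤ r₀ →
        (str lam (u s) y - c) / φ (H s * √(sg y))
          ≤ (str lam (u t) x - c) / φ (H t * √(sg x))) →
      x 0 * pd 0 (p t) x + x 1 * pd 1 (p t) x ≤ (u t x 0 ^ 2 + u t x 1 ^ 2)
        + 2 * lam * ν * ∑ j, pd j (circ (u t)) x ^ 2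
        + (str lam (u t) x - c) / φ (H t * √(sg x)) *
          ((H t * √(sg x)) * deriv φ (H t * √(sg x)) * (deriv H t / H t + rad (u t) x / sg x)
            + ν * ((H t * √(sg x)) * deriv φ (H t * √(sg x))
              - (H t * √(sg x)) ^ 2 * deriv (deriv φ) (H t * √(sg x))) / sg x)) :
    ∃ A : ℝ, 0 < A ∧ ∀ t ∈ Ico 0 T, ∀ x, 0 < √(sg x) → √(sg x) ≤ r₀ →
      str lam (u t) x ≤ c + A * φ (H t * √(sg x)) := by
  rcases le_or_gt T 0 with hT | hT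
  · exact ⟨1, one_pos, fun t ht => absurd (ht.1.trans_lt ht.2) (not_lt.2 hT)⟩
  have h0T : (0 : ℝ) ∈ Ico 0 T := ⟨le_rfl, hT⟩
  have hHp : ∀ t ∈ Ico 0 T, 0 < H t := fun t ht => hm.trans_le (hHm t ht)
  have hφ0 : ∀ y, 0 < y → 0 < φ y := fun y hy => (hφ.2.2 y hy).1
  obtain ⟨U, hU0, hU⟩ := u_bdd hS hT
  obtain ⟨G, hG⟩ : ∃ G : ℝ, G = 2 * U + lam * (4 * r₀ * U ^ 2) + 1 := ⟨_, rfl⟩
  have hG0 : 0 < G := by rw [hG]; positivity
  obtain ⟨ρs, hρs⟩ : ∃ ρs : ℝ, ρs = c / G := ⟨_, rfl⟩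
  have hρs0 : 0 < ρs := by rw [hρs]; positivity
  obtain ⟨M', hM'⟩ : ∃ M' : ℝ, M' = 2 * r₀ * |M| + lam * (4 * r₀ ^ 2 * |M| ^ 2) := ⟨_, rfl⟩
  have hM'0 : 0 ≤ M' := by rw [hM']; positivity
  have hφs : 0 < φ (m * ρs) := hφ0 _ (mul_pos hm hρs0)
  have hφr : 0 < φ (m * r₀) := hφ0 _ (mul_pos hm hr₀)
  obtain ⟨A, hA⟩ : ∃ A : ℝ, A = 1 + |K| + G * r₀ / φ (m * ρs) + M' / φ (m * r₀) :=
    ⟨_, rfl⟩
  have n1 : 0 ≤ |K| := abs_nonneg K
  have n2 : 0 ≤ M' / φ (m * r₀) := by positivity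
  have n3 : 0 ≤ G * r₀ / φ (m * ρs) := by positivity
  have hA1 : G * r₀ ≤ A * φ (m * ρs) := by
    have h1 : G * r₀ / φ (m * ρs) ≤ A := by rw [hA]; linarith
    exact (div_le_iff₀ hφs).1 h1
  have hA2 : M' ≤ A * φ (m * r₀) := by
    have h1 : M' / φ (m * r₀) ≤ A := by rw [hA]; linarith
    exact (div_le_iff₀ hφr).1 h1
  have hA0 : 0 < A := by rw [hA]; positivity
  have hAK : K ≤ A := by
    have h1 := le_abs_self K
    rw [hA]
    linarith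
  have hrS : √(r₀ ^ 2) = r₀ := Real.sqrt_sq hr₀.le
  have hle : ∀ x : V, sg x ≤ r₀ ^ 2 ↔ √(sg x) ≤ r₀ := fun x => by
    rw [Real.sqrt_le_left hr₀.le]
  have hlt : ∀ x : V, sg x < r₀ ^ 2 ↔ √(sg x) < r₀ := fun x => by
    rw [Real.sqrt_lt' hr₀]
  refine ⟨A, hA0, fun t ht x hx0 hx => ?_⟩
  refine cmpF hν hS (c := c) (S := r₀ ^ 2) (lam := lam) (H := H) (φ := φ) hc hlam hHp hHc hHd
    hφ.1 hφ0 hA0 ?_ ?_ ?_ t ht x (Real.sqrt_pos.1 hx0) ((hle x).2 hx)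
  · -- initial
    intro y hy0 hy
    have hyr : √(sg y) ≤ r₀ := (hle y).1 hy
    have h1 := str_le lam hlam (hU 0 ⟨le_rfl, le_rfl⟩ y)
    have hs0 := Real.sqrt_nonneg (sg y)
    have hsp : 0 < √(sg y) := Real.sqrt_pos.2 hy0
    have h2 : 2 * √(sg y) * U + lam * (4 * sg y * U ^ 2) ≤ G * √(sg y) := by
      have h3 : lam * (4 * sg y * U ^ 2) ≤ lam * (4 * (r₀ * √(sg y)) * U ^ 2) := by
        have h4 : sg y ≤ r₀ * √(sg y) := by
          calc sg y = √(sg y) * √(sg y) := (Real.mul_self_sqrt (sg_nonneg y)).symm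
            _ ≤ r₀ * √(sg y) := mul_le_mul_of_nonneg_right hyr hs0
        gcongr
      rw [hG]
      linarith
    have h6 : 0 < φ (H 0 * √(sg y)) := hφ0 _ (mul_pos (hHp 0 h0T) hsp)
    rcases le_or_gt (√(sg y)) ρs with h3 | h3
    · have h4 : G * √(sg y) ≤ c := by
        calc G * √(sg y) ≤ G * ρs := mul_le_mul_of_nonneg_left h3 hG0.le
          _ = c := by rw [hρs]; field_simp
      have h5 : 0 < A * φ (H 0 * √(sg y)) := mul_pos hA0 h6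
      linarith
    · have h4 : G * √(sg y) ≤ G * r₀ := mul_le_mul_of_nonneg_left hyr hG0.le
      have h5 : A * φ (m * ρs) ≤ A * φ (H 0 * √(sg y)) := by
        apply mul_le_mul_of_nonneg_left _ hA0.le
        exact hφ.mono (mul_pos hm hρs0) (mul_pos (hHp 0 h0T) hsp)
          (mul_le_mul (hHm 0 h0T) h3.le hρs0.le (hHp 0 h0T).le)
      linarith
  · -- lateral
    intro s hs y hy0 hy
    have hyr : √(sg y) = r₀ := by rw [hy, hrS]
    have h1 := str_le lam hlam ((hM s hs y hyr).trans (le_abs_self M))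
    rw [hy, hrS] at h1
    rw [hyr]
    have h5 : A * φ (m * r₀) ≤ A * φ (H s * r₀) := by
      apply mul_le_mul_of_nonneg_left _ hA0.le
      exact hφ.mono (mul_pos hm hr₀) (mul_pos (hHp s hs) hr₀)
        (mul_le_mul_of_nonneg_right (hHm s hs) hr₀.le)
    rw [hM'] at hA2
    linarith
  · -- the condition
    intro s hs y hy0 hyS hbig hrec
    exact hcond s hs y (Real.sqrt_pos.2 hy0) ((hlt y).1 hyS) (hAK.trans_lt hbig)
      fun τ hτ z hz hzr => hrec τ hτ z (Real.sqrt_pos.1 hz) ((hle z).2 hzr)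

lemma toBSol (hS : AxSol ν T u p) : BSol ν T u p where
  smooth_u := hS.smooth_u
  smooth_p := hS.smooth_p
  divfree := hS.divfree
  momentum := hS.momentum
  axi := hS.axi
  bdd := fun T' hT' => by
    obtain ⟨U, -, hU⟩ := u_bdd hS hT'
    exact ⟨U, hU⟩

theorem mainF2 (hν : 0 < ν) (hS : AxSol ν T u p) {c lam r₀ M A C I : ℝ}
    (hc2 : c < 2 * ν) (hlam : 0 ≤ lam) (hr₀ : 0 < r₀)
    (hM : ∀ t ∈ Ico 0 T, ∀ x, √(sg x) = r₀ → ‖u t x‖ ≤ M) {H b φ : ℝ → ℝ} (hφ : Prof φ)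
    (hH0 : ∀ t ∈ Ico 0 T, 0 < H t) (hA : 0 ≤ A) (hC : 0 ≤ C)
    (hb : ContinuousOn b (Ico 0 T)) (hI : ∀ t ∈ Ico 0 T, ∫ s in (0 : ℝ)..t, b s ^ 2 ≤ I)
    (hHb : ∀ t ∈ Ico 0 T, H t ≤ C / √(T - t) + b t)
    (hstr : ∀ t ∈ Ico 0 T, ∀ x, 0 < √(sg x) → √(sg x) ≤ r₀ →
      str lam (u t) x ≤ c + A * φ (H t * √(sg x))) :
    ∃ β : ℝ, 0 < β ∧ ∃ A' : ℝ, ∀ t ∈ Ico 0 T, ∀ x, √(sg x) ≤ r₀ →
      |circ (u t) x| ≤ A' * √(sg x) ^ β := by
  obtain ⟨y, hy⟩ : ∃ y : ℝ, y = (2 * ν - c) / 2 := ⟨_, rfl⟩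
  have hy0 : 0 < y := by rw [hy]; linarith
  obtain ⟨C₁, hC₁, hlin⟩ := hφ.lin hA hy0
  obtain ⟨β, hβ, Hm⟩ := Pool.Agent.NH42.AX.typeOne hν (μ := y / ν) (by positivity)
    (C := C₁ * C) (by positivity)
  refine ⟨β, hβ, ?_⟩
  obtain ⟨A', hA'⟩ := Hm T u p (toBSol hS) (fun r => r) (fun t => C₁ * b t) (fun _ => 0)
    (2 * r₀ * |M|) r₀ (C₁ ^ 2 * I) hr₀ (concaveOn_id (convex_Ici 0))
    (fun _ _ _ _ hab => hab) continuousOn_id le_rfl (fun x hx => hx) (continuousOn_const.mul hb)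
    continuousOn_const
    (fun _ _ => le_rfl) (by
      intro t ht
      have h1 : ∫ s in (0 : ℝ)..t, ((C₁ * b s) ^ 2 + 0) = C₁ ^ 2 * ∫ s in (0 : ℝ)..t, b s ^ 2 := by
        rw [← intervalIntegral.integral_const_mul]
        congr 1
        funext s
        ring
      rw [h1]
      exact mul_le_mul_of_nonneg_left (hI t ht) (sq_nonneg _))
    (Or.inr (by
      intro t ht x hx
      have h1 := circ_le (u t) x
      rw [hx] at h1
      exact h1.trans (mul_le_mul_of_nonneg_left ((hM t ht x hx).trans (le_abs_self M))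
        (by positivity))))
    (by
      intro t ht x hx0 hxr _
      have htI := Ioo_subset_Ico_self ht
      have h1 := hstr t htI x hx0 hxr.le
      have h2 := hlin (H t * √(sg x)) (mul_pos (hH0 t htI) hx0)
      have h3 : -rad (u t) x ≤ str lam (u t) x := by
        unfold str
        have : 0 ≤ lam * circ (u t) x ^ 2 := by positivity
        linarith
      have h4 : C₁ * (H t * √(sg x)) ≤ (C₁ * C / √(T - t) + C₁ * b t) * √(sg x) := by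
        have h5 := mul_le_mul_of_nonneg_right (hHb t htI) hx0.le
        have h6 := mul_le_mul_of_nonneg_left h5 hC₁
        calc C₁ * (H t * √(sg x)) ≤ C₁ * ((C / √(T - t) + b t) * √(sg x)) := h6
          _ = _ := by ring
      have h5 : (2 - y / ν) * ν = c + y := by
        have : (2 - y / ν) * ν = 2 * ν - y := by field_simp
        rw [this, hy]
        ring
      have h6 : x 0 * u t x 0 + x 1 * u t x 1 = rad (u t) x := rfl
      rw [h6, h5]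
      simp only [zero_mul, sub_zero]
      linarith)
  exact ⟨A', hA'⟩

lemma str_zero (v : V → V) (x : V) : str 0 v x = -rad v x := by
  unfold str
  ring

lemma hor_sq (v : V → V) (x : V) :
    rad v x ^ 2 + circ v x ^ 2 = sg x * (v x 0 ^ 2 + v x 1 ^ 2) := by
  unfold rad circ sg
  ring

theorem mainF3 (hν : 0 < ν) (hS : AxSol ν T u p) {c r₀ M m K : ℝ}
    (hc : 0 < c) (hr₀ : 0 < r₀) (hK : 0 ≤ K)
    (hM : ∀ t ∈ Ico 0 T, ∀ x, √(sg x) = r₀ → ‖u t x‖ ≤ M) {H φ : ℝ → ℝ} (hφ : Prof φ)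
    (hm : 0 < m)
    (hHm : ∀ t ∈ Ico 0 T, m ≤ H t) (hHc : ContinuousOn H (Ico 0 T))
    (hHd : ∀ t ∈ Ioo 0 T, DifferentiableAt ℝ H t) (hH' : ∀ t ∈ Ioo 0 T, 0 ≤ deriv H t)
    (hcond : ∀ t ∈ Ioo 0 T, ∀ x, 0 < √(sg x) → √(sg x) < r₀ →
      K < (str 0 (u t) x - c) / φ (H t * √(sg x)) →
      (∀ s ∈ Icc 0 t, ∀ y, 0 < √(sg y) → √(sg y) ≤ r₀ →
        (str 0 (u s) y - c) / φ (H s * √(sg y))
          ≤ (str 0 (u t) x - c) / φ (H t * √(sg x))) →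
      x 0 * pd 0 (p t) x + x 1 * pd 1 (p t) x ≤ (circ (u t) x / √(sg x)) ^ 2
        + (rad (u t) x / √(sg x)) ^ 2
        - (H t * √(sg x)) * deriv φ (H t * √(sg x)) / φ (H t * √(sg x)) *
          ((rad (u t) x / √(sg x)) ^ 2 - (c / √(sg x)) ^ 2)
        + K * ((H t * √(sg x)) * deriv φ (H t * √(sg x))) * (1 / sg x + deriv H t / H t)) :
    ∃ A : ℝ, 0 < A ∧ ∀ t ∈ Ico 0 T, ∀ x, 0 < √(sg x) → √(sg x) ≤ r₀ →
      str 0 (u t) x ≤ c + A * φ (H t * √(sg x)) := by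
  obtain ⟨K₁, hK₁⟩ : ∃ K₁ : ℝ, K₁ = K + K / (c + ν) := ⟨_, rfl⟩
  have hcν : 0 < c + ν := by linarith
  have h1 : 0 ≤ K / (c + ν) := by positivity
  have h2 : K ≤ K₁ := by rw [hK₁]; linarith
  have h3 : K ≤ (c + ν) * K₁ := by
    rw [hK₁]
    have : (c + ν) * (K + K / (c + ν)) = (c + ν) * K + K := by field_simp
    rw [this]
    have : 0 ≤ (c + ν) * K := by positivity
    linarith
  refine mainF1 hν hS (K := K₁) hc le_rfl hr₀ hM hφ hm hHm hHc hHd ?_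
  intro t ht x hx0 hxr hbig hrec
  have h4 := hcond t ht x hx0 hxr (h2.trans_lt hbig) hrec
  refine h4.trans ?_
  have hHt : 0 < H t := hm.trans_le (hHm t (Ioo_subset_Ico_self ht))
  obtain ⟨ρ, hρ⟩ : ∃ ρ : ℝ, ρ = √(sg x) := ⟨_, rfl⟩
  have hρ0 : 0 < ρ := by rw [hρ]; exact hx0
  have hσ : sg x = ρ ^ 2 := by rw [hρ, Real.sq_sqrt (sg_nonneg x)]
  have hhor : u t x 0 ^ 2 + u t x 1 ^ 2 = (rad (u t) x ^ 2 + circ (u t) x ^ 2) / ρ ^ 2 := by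
    rw [hor_sq, hσ]
    field_simp
  obtain ⟨y, hy⟩ : ∃ y : ℝ, y = H t * ρ := ⟨_, rfl⟩
  have hy0 : 0 < y := by rw [hy]; positivity
  obtain ⟨g0, g1, g2⟩ := hφ.2.2 y hy0
  rw [str_zero, ← hρ, ← hy] at hbig
  rw [str_zero, hhor, ← hρ, hσ, ← hy]
  obtain ⟨f0, hf0⟩ : ∃ f0 : ℝ, f0 = φ y := ⟨_, rfl⟩
  obtain ⟨f1, hf1⟩ : ∃ f1 : ℝ, f1 = deriv φ y := ⟨_, rfl⟩
  obtain ⟨f2, hf2⟩ : ∃ f2 : ℝ, f2 = deriv (deriv φ) y := ⟨_, rfl⟩
  obtain ⟨q, hq⟩ : ∃ q : ℝ, q = -rad (u t) x := ⟨_, rfl⟩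
  have hr : rad (u t) x = -q := by rw [hq]; ring
  rw [← hq, ← hf0] at hbig
  rw [← hf0] at g0
  rw [← hf1] at g1
  rw [← hf2] at g2
  rw [← hq, hr, ← hf0, ← hf1, ← hf2]
  obtain ⟨G, hG⟩ : ∃ G : ℝ, G = circ (u t) x := ⟨_, rfl⟩
  rw [← hG]
  obtain ⟨R, hR⟩ : ∃ R : ℝ, R = (q - c) / f0 := ⟨_, rfl⟩
  have hqR : q = c + R * f0 := by rw [hR]; field_simp; ring
  rw [← hR] at hbig ⊢
  have hK₁0 : 0 ≤ K₁ := hK.trans h2
  have hR0 : 0 < R := lt_of_le_of_lt hK₁0 hbig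
  have e : ((-q) ^ 2 + G ^ 2) / ρ ^ 2 + 2 * 0 * ν * ∑ j, pd j (circ (u t)) x ^ 2
      + R * (y * f1 * (deriv H t / H t + -q / ρ ^ 2)
        + ν * (y * f1 - y ^ 2 * f2) / ρ ^ 2)
      = (G / ρ) ^ 2 + (-q / ρ) ^ 2 - y * f1 / f0 * ((-q / ρ) ^ 2 - (c / ρ) ^ 2)
        + (c + ν) * R * (y * f1) / ρ ^ 2 + R * (y * f1) * (deriv H t / H t)
        + ν * R * y ^ 2 * (-f2) / ρ ^ 2 := by
    rw [hqR]
    field_simp
    ring
  rw [e]
  have h5 : K * (y * f1) * (1 / ρ ^ 2) ≤ (c + ν) * R * (y * f1) / ρ ^ 2 := by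
    have h7 : 0 ≤ y * f1 := by positivity
    have h8 : K ≤ (c + ν) * R := h3.trans (mul_le_mul_of_nonneg_left hbig.le hcν.le)
    calc K * (y * f1) * (1 / ρ ^ 2) ≤ (c + ν) * R * (y * f1) * (1 / ρ ^ 2) := by gcongr
      _ = _ := by ring
  have h6 : K * (y * f1) * (deriv H t / H t) ≤ R * (y * f1) * (deriv H t / H t) := by
    have h7 := hH' t ht
    have h8 : K ≤ R := h2.trans hbig.le
    gcongr
  have h8 : 0 ≤ ν * R * y ^ 2 * (-f2) / ρ ^ 2 := by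
    have : 0 ≤ -f2 := by linarith
    positivity
  have h7 : K * (y * f1) * (1 / ρ ^ 2 + deriv H t / H t)
      = K * (y * f1) * (1 / ρ ^ 2) + K * (y * f1) * (deriv H t / H t) := by ring
  linarith

end Pool.Agent.NH95.AX
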