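import Pool.Agent.TH305.AX.BVdef

/-!
Axisymmetric flows: the equation of `-ρ u_ρ + λ Γ ^ 2` at a touching point (helper95).
-/

set_option autoImplicit false

open MeasureTheory Set Metric Filter Topology
open scoped ContDiff

namespace Pool.Agent.NH95.AX

open H459R3.NS W221.NS Pool.Agent.TH305.DR Pool.Agent.TH305.AX

/-- The distance to the axis times the radial component of the field `v`. -/
def rad (v : V → V) (x : V) : ℝ := x 0 * v x 0 + x 1 * v x 1

section rad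
variable {v : V → V}

lemma sm_rad (hv : ContDiff ℝ ∞ v) : ContDiff ℝ ∞ (rad v) :=
  ((sm_crd 0).mul (sm_cmp hv 0)).add ((sm_crd 1).mul (sm_cmp hv 1))

lemma pd_rad (hv : ContDiff ℝ ∞ v) (j : Fin 3) : pd j (rad v) = fun x =>
    (x 0 * pd j (fun y => v y 0) x + (if (0 : Fin 3) = j then 1 else 0) * v x 0)
      + (x 1 * pd j (fun y => v y 1) x + (if (1 : Fin 3) = j then 1 else 0) * v x 1) := by
  have h1 : rad v = fun y => y 0 * v y 0 + y 1 * v y 1 := rfl
  rw [h1, pd_add' ((sm_crd 0).mul (sm_cmp hv 0)) ((sm_crd 1).mul (sm_cmp hv 1)),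
    pd_mulf (sm_crd 0) (sm_cmp hv 0), pd_mulf (sm_crd 1) (sm_cmp hv 1), pd_crd, pd_crd]

lemma pd2_rad (hv : ContDiff ℝ ∞ v) (j : Fin 3) (x : V) : pd j (pd j (rad v)) x =
    x 0 * pd j (pd j fun y => v y 0) x + x 1 * pd j (pd j fun y => v y 1) x
      + 2 * ((if (0 : Fin 3) = j then 1 else 0) * pd j (fun y => v y 0) x
        + (if (1 : Fin 3) = j then 1 else 0) * pd j (fun y => v y 1) x) := by
  rw [pd_rad hv j]
  obtain ⟨c0, hc0⟩ : ∃ c : ℝ, c = if (0 : Fin 3) = j then 1 else 0 := ⟨_, rfl⟩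
  obtain ⟨c1, hc1⟩ : ∃ c : ℝ, c = if (1 : Fin 3) = j then 1 else 0 := ⟨_, rfl⟩
  rw [← hc0, ← hc1]
  have h1 := sm_cmp hv 1
  have h0 := sm_cmp hv 0
  have d1 : ContDiff ℝ ∞ (pd j fun y => v y 1) := Pool.Agent.W583.MD.sm_pd h1 j
  have d0 : ContDiff ℝ ∞ (pd j fun y => v y 0) := Pool.Agent.W583.MD.sm_pd h0 j
  have k0 : ContDiff ℝ ∞ (fun x : V => x 0 * pd j (fun y => v y 0) x + c0 * v x 0) :=
    ((sm_crd 0).mul d0).add (contDiff_const.mul h0)
  have k1 : ContDiff ℝ ∞ (fun x : V => x 1 * pd j (fun y => v y 1) x + c1 * v x 1) :=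
    ((sm_crd 1).mul d1).add (contDiff_const.mul h1)
  rw [pd_add' k0 k1, pd_add' ((sm_crd 0).mul d0) (contDiff_const.mul h0),
    pd_add' ((sm_crd 1).mul d1) (contDiff_const.mul h1), pd_mulf (sm_crd 1) d1,
    pd_mulf (sm_crd 0) d0, pd_cmul, pd_cmul, pd_crd, pd_crd, ← hc0, ← hc1]
  ring

lemma lap_rad (hv : ContDiff ℝ ∞ v) (x : V) : lap (rad v) x =
    x 0 * lap (fun y => v y 0) x + x 1 * lap (fun y => v y 1) x
      + 2 * (pd 0 (fun y => v y 0) x + pd 1 (fun y => v y 1) x) := by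
  unfold lap
  simp only [pd2_rad hv, Fin.sum_univ_three]
  have e1 : ((0 : Fin 3) = 1) = False := by simp
  have e2 : ((0 : Fin 3) = 2) = False := by simp
  have e3 : ((1 : Fin 3) = 0) = False := by simp
  have e4 : ((1 : Fin 3) = 2) = False := by simp
  simp only [e1, e2, e3, e4, if_true, if_false]
  ring

lemma adv_rad (hv : ContDiff ℝ ∞ v) (x : V) : ∑ j, v x j * pd j (rad v) x =
    x 0 * ∑ j, v x j * pd j (fun y => v y 0) x + x 1 * ∑ j, v x j * pd j (fun y => v y 1) x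
      + (v x 0 ^ 2 + v x 1 ^ 2) := by
  simp only [pd_rad hv, Fin.sum_univ_three]
  have e1 : ((0 : Fin 3) = 1) = False := by simp
  have e2 : ((0 : Fin 3) = 2) = False := by simp
  have e3 : ((1 : Fin 3) = 0) = False := by simp
  have e4 : ((1 : Fin 3) = 2) = False := by simp
  simp only [e1, e2, e3, e4, if_true, if_false]
  ring

/-- The horizontal divergence and the radial derivative of `ρ u_ρ`. -/
lemma dv_rad (hv : ContDiff ℝ ∞ v) (ha : Axi v) (x : V) :
    sg x * (pd 0 (fun y => v y 0) x + pd 1 (fun y => v y 1) x)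
      = x 0 * pd 0 (rad v) x + x 1 * pd 1 (rad v) x := by
  obtain ⟨h0, h1⟩ := axi_inf hv ha x
  simp only [pd_rad hv]
  have e3 : ((1 : Fin 3) = 0) = False := by simp
  have e1 : ((0 : Fin 3) = 1) = False := by simp
  simp only [e1, e3, if_true, if_false]
  unfold sg
  linear_combination (-x 1) * h0 + (x 0) * h1

lemma rad_le (v : V → V) (x : V) : |rad v x| ≤ 2 * √(sg x) * ‖v x‖ := by
  obtain ⟨h0, h1⟩ := abs_le_sqrt_sg x
  have e0 : |v x 0| ≤ ‖v x‖ := norm_le_pi_norm (v x) 0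
  have e1 : |v x 1| ≤ ‖v x‖ := norm_le_pi_norm (v x) 1
  unfold rad
  calc |x 0 * v x 0 + x 1 * v x 1| ≤ |x 0 * v x 0| + |x 1 * v x 1| := abs_add_le _ _
    _ = |x 0| * |v x 0| + |x 1| * |v x 1| := by rw [abs_mul, abs_mul]
    _ ≤ √(sg x) * ‖v x‖ + √(sg x) * ‖v x‖ := by gcongr
    _ = _ := by ring

end rad

/-- The strength of the inflow, `-ρ u_ρ + λ Γ ^ 2`. -/
def str (lam : ℝ) (v : V → V) (x : V) : ℝ := -rad v x + lam * circ v x ^ 2

section str
variable {v : V → V} {lam : ℝ}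

lemma sm_str (hv : ContDiff ℝ ∞ v) : ContDiff ℝ ∞ (str lam v) :=
  (sm_rad hv).neg.add (contDiff_const.mul ((sm_circ hv).pow 2))

lemma pd_str (hv : ContDiff ℝ ∞ v) (j : Fin 3) : pd j (str lam v) = fun x =>
    (-1) * pd j (rad v) x + (2 * lam) * (circ v x * pd j (circ v) x) := by
  have h1 : str lam v = fun y => (-1) * rad v y + lam * (circ v y * circ v y) := by
    funext y
    unfold str
    ring
  rw [h1, pd_add' (contDiff_const.mul (sm_rad hv))
    (contDiff_const.mul ((sm_circ hv).mul (sm_circ hv))), pd_cmul, pd_cmul,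
    pd_mulf (sm_circ hv) (sm_circ hv)]
  funext x
  ring

lemma pd2_str (hv : ContDiff ℝ ∞ v) (j : Fin 3) (x : V) : pd j (pd j (str lam v)) x =
    (-1) * pd j (pd j (rad v)) x
      + (2 * lam) * (circ v x * pd j (pd j (circ v)) x + pd j (circ v) x ^ 2) := by
  have d1 : ContDiff ℝ ∞ (pd j (rad v)) := Pool.Agent.W583.MD.sm_pd (sm_rad hv) j
  have d2 : ContDiff ℝ ∞ (pd j (circ v)) := Pool.Agent.W583.MD.sm_pd (sm_circ hv) j
  rw [pd_str hv j, pd_add' (contDiff_const.mul d1)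
    (contDiff_const.mul ((sm_circ hv).mul d2)), pd_cmul, pd_cmul, pd_mulf (sm_circ hv) d2]
  ring

lemma rad_rot (ha : Axi v) (θ : ℝ) (x : V) : rad v (rot θ x) = rad v x := by
  unfold rad
  rw [ha]
  have h := Real.sin_sq_add_cos_sq θ
  show (Real.cos θ * x 0 - Real.sin θ * x 1) * (Real.cos θ * v x 0 - Real.sin θ * v x 1)
    + (Real.sin θ * x 0 + Real.cos θ * x 1) * (Real.sin θ * v x 0 + Real.cos θ * v x 1) = _
  linear_combination (x 0 * v x 0 + x 1 * v x 1) * h

lemma str_rot (ha : Axi v) (θ : ℝ) (x : V) : str lam v (rot θ x) = str lam v x := by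
  unfold str
  rw [rad_rot ha, circ_rot ha]

end str

/-- The equation of `-ρ u_ρ + λ Γ ^ 2` at a touching point. -/
theorem touchQ {ν lam : ℝ} (hν : 0 < ν) {v : V → V} (hv : ContDiff ℝ ∞ v) (ha : Axi v)
    {P : V → ℝ} {x : V} {d : Fin 3 → ℝ}
    (hmom : ∀ i, d i + ∑ j, v x j * pd j (fun y => v y i) x
      = ν * ∑ j, pd j (pd j (fun y => v y i)) x - pd i P x)
    (hq : x 0 * pd 1 P x - x 1 * pd 0 P x = 0)
    {W : V → ℝ} (hσ : 0 < sg x)
    (hW : ContDiffAt ℝ 2 W x) (hmax : IsLocalMax (fun y => str lam v y - W y) x) :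
    -(x 0 * d 0 + x 1 * d 1) + 2 * lam * circ v x * (x 0 * d 1 - x 1 * d 0)
      ≤ ν * (lap W x - 2 * (x 0 * pd 0 W x + x 1 * pd 1 W x) / sg x)
      - ∑ j, v x j * pd j W x - (v x 0 ^ 2 + v x 1 ^ 2)
      + (x 0 * pd 0 P x + x 1 * pd 1 P x) - 2 * lam * ν * ∑ j, pd j (circ v) x ^ 2 := by
  have hsc : ContDiff ℝ ∞ (str lam v) := sm_str hv
  have hf : ContDiffAt ℝ 2 (fun y => str lam v y - W y) x :=
    (hsc.contDiffAt.of_le (by norm_cast)).sub hW
  have hpd : ∀ j, (-1) * pd j (rad v) x + (2 * lam) * (circ v x * pd j (circ v) x)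
      = pd j W x := by
    intro j
    have h1 := (max_pd hf hmax j).1
    rw [(pd2_sub_at hsc hW j).1, pd_str hv j] at h1
    linarith
  have hpd2 : ∀ j, (-1) * pd j (pd j (rad v)) x
      + (2 * lam) * (circ v x * pd j (pd j (circ v)) x + pd j (circ v) x ^ 2)
      ≤ pd j (pd j W) x := by
    intro j
    have h1 := (max_pd hf hmax j).2
    rw [(pd2_sub_at hsc hW j).2, pd2_str hv j] at h1
    linarith
  have hlap : (-1) * lap (rad v) x + (2 * lam) * (circ v x * lap (circ v) x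
      + ∑ j, pd j (circ v) x ^ 2) ≤ lap W x := by
    have h1 := Finset.sum_le_sum fun j (_ : j ∈ (Finset.univ : Finset (Fin 3))) => hpd2 j
    unfold lap
    simp only [Fin.sum_univ_three] at h1 ⊢
    linarith
  have hadv : (-1) * ∑ j, v x j * pd j (rad v) x
      + (2 * lam) * (circ v x * ∑ j, v x j * pd j (circ v) x) = ∑ j, v x j * pd j W x := by
    simp only [Fin.sum_univ_three]
    linear_combination v x 0 * hpd 0 + v x 1 * hpd 1 + v x 2 * hpd 2
  have hom : (-1) * (pd 0 (fun y => v y 0) x + pd 1 (fun y => v y 1) x)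
      + (2 * lam) * (circ v x * (pd 0 (fun y => v y 1) x - pd 1 (fun y => v y 0) x))
      = (x 0 * pd 0 W x + x 1 * pd 1 W x) / sg x := by
    rw [eq_div_iff hσ.ne', ← hpd 0, ← hpd 1]
    have h1 := dv_rad hv ha x
    have h2 := om_circ hv ha x
    linear_combination (-1) * h1 + (2 * lam * circ v x) * h2
  have m0 := hmom 0
  have m1 := hmom 1
  have hl := lap_rad hv x
  have had := adv_rad hv x
  have hl' := lap_circ hv x
  have had' := adv_circ hv x
  have hl0 : ∑ j, pd j (pd j (fun y => v y 0)) x = lap (fun y => v y 0) x := rfl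
  have hl1 : ∑ j, pd j (pd j (fun y => v y 1)) x = lap (fun y => v y 1) x := rfl
  rw [hl0] at m0
  rw [hl1] at m1
  have key : x 0 * d 0 + x 1 * d 1 = ν * (lap (rad v) x
      - 2 * (pd 0 (fun y => v y 0) x + pd 1 (fun y => v y 1) x))
      - ∑ j, v x j * pd j (rad v) x + (v x 0 ^ 2 + v x 1 ^ 2)
      - (x 0 * pd 0 P x + x 1 * pd 1 P x) := by
    rw [hl, had]
    linear_combination x 0 * m0 + x 1 * m1
  have key' : x 0 * d 1 - x 1 * d 0 = ν * (lap (circ v) x
      - 2 * (pd 0 (fun y => v y 1) x - pd 1 (fun y => v y 0) x))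
      - ∑ j, v x j * pd j (circ v) x := by
    rw [hl', had']
    linear_combination x 0 * m1 - x 1 * m0 - hq
  have e : -(x 0 * d 0 + x 1 * d 1) + 2 * lam * circ v x * (x 0 * d 1 - x 1 * d 0)
      = ν * (((-1) * lap (rad v) x + (2 * lam) * (circ v x * lap (circ v) x
          + ∑ j, pd j (circ v) x ^ 2))
        - 2 * ((-1) * (pd 0 (fun y => v y 0) x + pd 1 (fun y => v y 1) x)
          + (2 * lam) * (circ v x * (pd 0 (fun y => v y 1) x - pd 1 (fun y => v y 0) x))))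
      - ((-1) * ∑ j, v x j * pd j (rad v) x
        + (2 * lam) * (circ v x * ∑ j, v x j * pd j (circ v) x)) - (v x 0 ^ 2 + v x 1 ^ 2)
      + (x 0 * pd 0 P x + x 1 * pd 1 P x) - 2 * lam * ν * ∑ j, pd j (circ v) x ^ 2 := by
    rw [key, key']
    ring
  rw [e, hom, hadv]
  have h1 := mul_le_mul_of_nonneg_left hlap hν.le
  have h2 : 2 * (x 0 * pd 0 W x + x 1 * pd 1 W x) / sg x
      = 2 * ((x 0 * pd 0 W x + x 1 * pd 1 W x) / sg x) := by ring
  rw [h2]
  linarith

variable {ν T : ℝ} {u : ℝ → V → V} {p : ℝ → V → ℝ}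

/-- The time derivative of `ρ u_ρ`. -/
lemma rad_hd (h : AxSol ν T u p) {t : ℝ} (ht : t ∈ Ioo 0 T) (x : V) :
    HasDerivAt (fun τ => rad (u τ) x)
      (x 0 * deriv (fun s => u s x 0) t + x 1 * deriv (fun s => u s x 1) t) t := by
  have hi : ∀ i : Fin 3, HasDerivAt (fun s => u s x i) (deriv (fun s => u s x i) t) t := by
    intro i
    have h1 : ContDiffOn ℝ ∞ (fun s : ℝ => u s x i) (Ioo 0 T) := by
      have h2 : ContDiffOn ℝ ∞ (fun s : ℝ => u s x) (Ioo 0 T) :=
        h.smooth_u.comp (f := fun s : ℝ => (s, x)) (by fun_prop)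
          (fun s hs => ⟨Ioo_subset_Ico_self hs, mem_univ _⟩)
      exact (contDiffOn_pi.1 h2) i
    exact ((h1.differentiableOn (by norm_cast)) t ht).differentiableAt
      (Ioo_mem_nhds ht.1 ht.2) |>.hasDerivAt
  exact ((hi 0).const_mul (x 0)).add ((hi 1).const_mul (x 1))

/-- Continuity of `ρ u_ρ`. -/
lemma rad_cont (h : AxSol ν T u p) :
    ContinuousOn (fun z : ℝ × V => rad (u z.1) z.2) (Ico 0 T ×ˢ univ) := by
  have hi : ∀ i : Fin 3, ContinuousOn (fun z : ℝ × V => u z.1 z.2 i) (Ico 0 T ×ˢ univ) :=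
    fun i => (continuous_apply i).comp_continuousOn h.smooth_u.continuousOn
  unfold rad
  have c0 : ContinuousOn (fun z : ℝ × V => z.2 0) (Ico 0 T ×ˢ univ) := by fun_prop
  have c1 : ContinuousOn (fun z : ℝ × V => z.2 1) (Ico 0 T ×ˢ univ) := by fun_prop
  exact (c0.mul (hi 0)).add (c1.mul (hi 1))

lemma str_cont (h : AxSol ν T u p) (lam : ℝ) :
    ContinuousOn (fun z : ℝ × V => str lam (u z.1) z.2) (Ico 0 T ×ˢ univ) := by
  unfold str
  exact (rad_cont h).neg.add (continuousOn_const.mul ((circ_cont h).pow 2))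

/-- The time derivative of the strength of the inflow. -/
lemma str_hd (h : AxSol ν T u p) (lam : ℝ) {t : ℝ} (ht : t ∈ Ioo 0 T) (x : V) :
    HasDerivAt (fun τ => str lam (u τ) x)
      (-(x 0 * deriv (fun s => u s x 0) t + x 1 * deriv (fun s => u s x 1) t)
        + 2 * lam * circ (u t) x *
          (x 0 * deriv (fun s => u s x 1) t - x 1 * deriv (fun s => u s x 0) t)) t := by
  unfold str
  have h1 := (rad_hd h ht x).neg.add (((circ_hd h ht x).pow 2).const_mul lam)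
  refine h1.congr_deriv ?_
  push_cast
  ring

end Pool.Agent.NH95.AX
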